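import Mathlib
import Pool.Agent.W313.HB.Stm2

/-!
# Few primes have a biased symbol on a given set of values

Project HB (helper313), part BADC.
-/

set_option autoImplicit false
set_option linter.all false

namespace Pool.Agent.W736.HB.BADC

open Finset Polynomial Pool.Agent.W313.HB

theorem ev_large (C1 : ℝ) : ∃ U1 : ℕ, ∀ U : ℕ, U1 ≤ U →
    4 * C1 * (U : ℝ) ^ (19 / 10 : ℝ) + 16 ≤ (U : ℝ) ^ (39 / 20 : ℝ) := by
  -- choose U with U ^ (1/20) ≥ 4 |C1| + 16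
  have h1 : Filter.Tendsto (fun n : ℕ => ((n : ℝ)) ^ (1 / 20 : ℝ)) Filter.atTop Filter.atTop :=
    (tendsto_rpow_atTop (by norm_num)).comp tendsto_natCast_atTop_atTop
  obtain ⟨U1, hU1⟩ := Filter.eventually_atTop.1 (h1.eventually_ge_atTop (4 * |C1| + 16))
  refine ⟨max U1 1, fun U hU => ?_⟩
  have hU' : U1 ≤ U := le_trans (le_max_left _ _) hU
  have hU1' : 1 ≤ U := le_trans (le_max_right _ _) hU
  have hpos : (0 : ℝ) < U := by exact_mod_cast hU1'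
  have h2 := hU1 U hU'
  have h3 : (U : ℝ) ^ (39 / 20 : ℝ) = (U : ℝ) ^ (19 / 10 : ℝ) * (U : ℝ) ^ (1 / 20 : ℝ) := by
    rw [← Real.rpow_add hpos]; norm_num
  have h4 : (1 : ℝ) ≤ (U : ℝ) ^ (19 / 10 : ℝ) :=
    Real.one_le_rpow (by exact_mod_cast hU1') (by norm_num)
  rw [h3]
  have h5 : C1 ≤ |C1| := le_abs_self C1
  calc 4 * C1 * (U : ℝ) ^ (19 / 10 : ℝ) + 16
      ≤ 4 * |C1| * (U : ℝ) ^ (19 / 10 : ℝ) + 16 * (U : ℝ) ^ (19 / 10 : ℝ) := by nlinarith
    _ = (U : ℝ) ^ (19 / 10 : ℝ) * (4 * |C1| + 16) := by ring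
    _ ≤ _ := mul_le_mul_of_nonneg_left h2 (by linarith)

theorem badc_ (h1 : S_LSV) (h2 : S_MULT) (h3 : S_SIZE) : S_BADC := by
  classical
  intro F hF
  have hF0 : F ≠ 0 := by
    rintro rfl
    have := hF.2
    simp at this
  obtain ⟨C1, U1, hC1, hM⟩ := h2 F hF
  obtain ⟨C2, U2, hS⟩ := h3 F hF0
  obtain ⟨U3, hL⟩ := ev_large C1
  refine ⟨2 * C2 + 2, U1 + U2 + U3 + 2, ?_⟩
  intro U hU M t1 hM1 hMU ht1 G hG B hB
  have hU2 : 2 ≤ U := by omega
  have hUpos : (0 : ℝ) < U := by exact_mod_cast (by omega : 0 < U)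
  have hmult := hM U (by omega) M t1 hM1 hMU ht1
  have hlarge := hL U (by omega)
  -- the large sieve
  have hlsv := h1 ℕ G (fun _ => 1) (fun u => val F t1 M u) B (2 * B) (by omega)
  beta_reduce at hlsv
  -- cardinality of G
  have hGc : G.card ≤ U := by
    have := Finset.card_le_card hG
    rw [Nat.card_Ioc] at this
    omega
  -- the diagonal
  have hpairs : ∑ x ∈ (G ×ˢ G).filter (fun x : ℕ × ℕ =>
      IsSquare (val F t1 M x.1 * val F t1 M x.2)), |(1 : ℝ)| * |(1 : ℝ)| ≤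
        C1 * (U : ℝ) ^ (19 / 10 : ℝ) := by
    have e1 : ∑ x ∈ (G ×ˢ G).filter (fun x : ℕ × ℕ =>
      IsSquare (val F t1 M x.1 * val F t1 M x.2)), |(1 : ℝ)| * |(1 : ℝ)| =
        (((G ×ˢ G).filter (fun x : ℕ × ℕ =>
      IsSquare (val F t1 M x.1 * val F t1 M x.2))).card : ℝ) := by
      simp
    rw [e1]
    refine le_trans ?_ hmult
    have : ((G ×ˢ G).filter (fun x : ℕ × ℕ =>
      IsSquare (val F t1 M x.1 * val F t1 M x.2))).card ≤
      (((Ioc U (2 * U)) ×ˢ (Ioc U (2 * U))).filter (fun x : ℕ × ℕ =>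
      IsSquare (val F t1 M x.1 * val F t1 M x.2))).card := by
      apply Finset.card_le_card
      intro x hx
      rw [Finset.mem_filter, Finset.mem_product] at hx ⊢
      exact ⟨⟨hG hx.1.1, hG hx.1.2⟩, hx.2⟩
    exact_mod_cast this
  -- the size
  have hsz : ∑ u ∈ G, |(1 : ℝ)| * |((val F t1 M u : ℤ) : ℝ)| ≤ (U : ℝ) ^ (C2 + 1) := by
    have hb : ∀ u ∈ G, |(1 : ℝ)| * |((val F t1 M u : ℤ) : ℝ)| ≤ (U : ℝ) ^ C2 := by
      intro u hu
      have huI := Finset.mem_Ioc.1 (hG hu)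
      have := (hS U (by omega) M t1 u hM1 hMU ht1 huI.1 huI.2).2.1
      rw [abs_one, one_mul]
      have h' : ((|val F t1 M u| : ℤ) : ℝ) ≤ (((U : ℤ) ^ C2 : ℤ) : ℝ) := by exact_mod_cast this
      push_cast at h'
      exact h'
    have := Finset.sum_le_card_nsmul G _ _ hb
    refine le_trans this ?_
    rw [nsmul_eq_mul, pow_succ, mul_comm]
    apply mul_le_mul_of_nonneg_left _ (by positivity)
    exact_mod_cast hGc
  have hsz0 : 0 ≤ ∑ u ∈ G, |(1 : ℝ)| * |((val F t1 M u : ℤ) : ℝ)| :=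
    Finset.sum_nonneg (fun u _ => by positivity)
  have hB1 : (U : ℝ) ^ (2 * C2 + 2) ≤ B := by exact_mod_cast hB
  -- upper bound
  have hup : ∑ n ∈ (Ioc B (2 * B)).filter (fun n => Odd n),
      (∑ i ∈ G, (1 : ℝ) * (jacobiSym (val F t1 M i) n : ℝ)) ^ 2 ≤
      B * (C1 * (U : ℝ) ^ (19 / 10 : ℝ)) + 4 * B := by
    refine le_trans hlsv ?_
    have e2 : (((2 * B : ℕ) : ℝ) - (B : ℝ)) = B := by push_cast; ring
    rw [e2]
    apply add_le_add
    · apply mul_le_mul_of_nonneg_left _ (Nat.cast_nonneg B)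
      convert hpairs
    · have h4 : (∑ u ∈ G, |(1 : ℝ)| * |((val F t1 M u : ℤ) : ℝ)|) ^ 2 ≤ B := by
        refine le_trans (pow_le_pow_left₀ hsz0 hsz 2) ?_
        rw [← pow_mul]
        refine le_trans (le_of_eq ?_) hB1
        congr 1
        ring
      linarith
  -- lower bound
  have hB2 : 2 ≤ B := by
    refine le_trans ?_ hB
    calc 2 ≤ U := hU2
      _ = U ^ 1 := (pow_one U).symm
      _ ≤ U ^ (2 * C2 + 2) := Nat.pow_le_pow_right (by omega) (by omega)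
  set P := (Ioc B (2 * B)).filter (fun p : ℕ => p.Prime ∧
      (G.card : ℝ) / 2 < |((∑ u ∈ G, jacobiSym (val F t1 M u) p : ℤ) : ℝ)|) with hP
  have hlow : (P.card : ℝ) * ((G.card : ℝ) / 2) ^ 2 ≤
      ∑ n ∈ (Ioc B (2 * B)).filter (fun n => Odd n),
      (∑ i ∈ G, (1 : ℝ) * (jacobiSym (val F t1 M i) n : ℝ)) ^ 2 := by
    have hsub : P ⊆ (Ioc B (2 * B)).filter (fun n => Odd n) := by
      intro p hp
      rw [hP, Finset.mem_filter] at hp
      rw [Finset.mem_filter]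
      refine ⟨hp.1, ?_⟩
      have := (Finset.mem_Ioc.1 hp.1).1
      exact hp.2.1.odd_of_ne_two (by omega)
    refine le_trans ?_ (Finset.sum_le_sum_of_subset_of_nonneg hsub
      (fun n _ _ => sq_nonneg _))
    rw [← nsmul_eq_mul]
    apply Finset.card_nsmul_le_sum
    intro p hp
    rw [hP, Finset.mem_filter] at hp
    have h5 := hp.2.2
    have e3 : (∑ i ∈ G, (1 : ℝ) * (jacobiSym (val F t1 M i) p : ℝ)) =
        ((∑ u ∈ G, jacobiSym (val F t1 M u) p : ℤ) : ℝ) := by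
      push_cast
      simp
    rw [e3, ← sq_abs (((∑ u ∈ G, jacobiSym (val F t1 M u) p : ℤ) : ℝ))]
    exact pow_le_pow_left₀ (by positivity) h5.le 2
  have hBn : (0 : ℝ) ≤ B := Nat.cast_nonneg B
  calc (P.card : ℝ) * (G.card : ℝ) ^ 2 = 4 * ((P.card : ℝ) * ((G.card : ℝ) / 2) ^ 2) := by ring
    _ ≤ 4 * (B * (C1 * (U : ℝ) ^ (19 / 10 : ℝ)) + 4 * B) := by linarith
    _ = B * (4 * C1 * (U : ℝ) ^ (19 / 10 : ℝ) + 16) := by ring
    _ ≤ B * (U : ℝ) ^ (39 / 20 : ℝ) := mul_le_mul_of_nonneg_left hlarge hBn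

end Pool.Agent.W736.HB.BADC
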